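import Pool.Agent.Helper4.CB.STM

/-!
# CB: values of the homogenised polynomials
-/

set_option autoImplicit false

namespace Pool.Agent.Helper14.CB

open NumberField Polynomial Pool.Agent.Helper4.CB

variable {K : Type} [Field K] [NumberField K]

/-- **PWC.** `P(u, V) = u ^ d` modulo `V`. -/
theorem hv_sub {P : (𝓞 K)[X]} (hP : P.Monic)
    (u V : 𝓞 K) : V ∣ hv P u V - u ^ P.natDegree := by
  unfold hv
  rw [eval_eq_sum_range, natDegree_scaleRoots, Finset.sum_range_succ]
  have h1 : (P.scaleRoots V).coeff P.natDegree * u ^ P.natDegree = u ^ P.natDegree := by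
    rw [coeff_scaleRoots, Nat.sub_self, pow_zero, mul_one, coeff_natDegree, hP.leadingCoeff,
      one_mul]
  rw [h1, add_sub_cancel_right]
  refine Finset.dvd_sum fun i hi => ?_
  rw [Finset.mem_range] at hi
  rw [coeff_scaleRoots]
  have h2 : V ∣ V ^ (P.natDegree - i) := dvd_pow_self V (by omega)
  exact Dvd.dvd.mul_right (Dvd.dvd.mul_left h2 _) _

theorem coprime_hv {P : (𝓞 K)[X]} (hP : P.Monic) {u V : 𝓞 K} (h : IsCoprime u V) :
    IsCoprime (hv P u V) V := by
  obtain ⟨c, hc⟩ := hv_sub hP u V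
  have h1 : hv P u V = u ^ P.natDegree + V * c := by
    rw [← hc]; ring
  rw [h1]
  exact (IsCoprime.pow_left h).add_mul_left_left c

theorem coe_hv (P : (𝓞 K)[X]) (u V : 𝓞 K) (hV : V ≠ 0) :
    (algebraMap (𝓞 K) K (hv P u V)) = (algebraMap (𝓞 K) K V) ^ P.natDegree *
      (P.map (algebraMap (𝓞 K) K)).eval ((algebraMap (𝓞 K) K u) / (algebraMap (𝓞 K) K V)) := by
  have hV' : algebraMap (𝓞 K) K V ≠ 0 := by
    rwa [Ne, FaithfulSMul.algebraMap_eq_zero_iff]
  have h := scaleRoots_eval₂_mul (p := P) (algebraMap (𝓞 K) K)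
    ((algebraMap (𝓞 K) K u) / (algebraMap (𝓞 K) K V)) V
  rw [mul_div_cancel₀ _ hV', eval₂_at_apply, eval₂_eq_eval_map] at h
  exact h

/-- homogenisation with a degree bound -/
noncomputable def hh (F : (𝓞 K)[X]) (N : ℕ) (u V : 𝓞 K) : 𝓞 K :=
  ∑ i ∈ Finset.range (N + 1), F.coeff i * u ^ i * V ^ (N - i)

theorem coe_hh (F : (𝓞 K)[X]) {N : ℕ} (hN : F.natDegree ≤ N) (u V : 𝓞 K) (hV : V ≠ 0) :
    (algebraMap (𝓞 K) K (hh F N u V)) = (algebraMap (𝓞 K) K V) ^ N *
      (F.map (algebraMap (𝓞 K) K)).eval ((algebraMap (𝓞 K) K u) / (algebraMap (𝓞 K) K V)) := by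
  have hV' : algebraMap (𝓞 K) K V ≠ 0 := by
    rwa [Ne, FaithfulSMul.algebraMap_eq_zero_iff]
  unfold hh
  rw [eval_eq_sum_range' (n := N + 1) (lt_of_le_of_lt (natDegree_map_le) (by omega)), map_sum,
    Finset.mul_sum]
  refine Finset.sum_congr rfl fun i hi => ?_
  rw [Finset.mem_range] at hi
  rw [coeff_map, map_mul, map_mul, map_pow, map_pow, div_pow]
  have h1 : (algebraMap (𝓞 K) K V) ^ N = (algebraMap (𝓞 K) K V) ^ (N - i) *
      (algebraMap (𝓞 K) K V) ^ i := by
    rw [← pow_add]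
    congr 1
    omega
  rw [h1]
  field_simp

/-- clearing denominators in a Bezout identity -/
theorem exists_bezout {P P' : (𝓞 K)[X]}
    (h : IsCoprime (P.map (algebraMap (𝓞 K) K)) (P'.map (algebraMap (𝓞 K) K))) :
    ∃ (b : 𝓞 K) (A B : (𝓞 K)[X]), b ≠ 0 ∧ A * P + B * P' = C b := by
  obtain ⟨A, B, hAB⟩ := h
  obtain ⟨a, ha, hA⟩ := IsLocalization.integerNormalization_spec
    (nonZeroDivisors (𝓞 K)) A
  obtain ⟨b, hb, hB⟩ := IsLocalization.integerNormalization_spec
    (nonZeroDivisors (𝓞 K)) B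
  set A' := IsLocalization.integerNormalization (nonZeroDivisors (𝓞 K)) A with hA'
  set B' := IsLocalization.integerNormalization (nonZeroDivisors (𝓞 K)) B with hB'
  refine ⟨a * b, C b * A', C a * B', mul_ne_zero (nonZeroDivisors.ne_zero ha)
    (nonZeroDivisors.ne_zero hb), ?_⟩
  have hinj : Function.Injective (algebraMap (𝓞 K) K) := FaithfulSMul.algebraMap_injective _ _
  apply Polynomial.map_injective _ hinj
  have hA2 : A'.map (algebraMap (𝓞 K) K) = C (algebraMap (𝓞 K) K a) * A := by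
    rw [hA]
    ext i
    simp [Algebra.smul_def]
  have hB2 : B'.map (algebraMap (𝓞 K) K) = C (algebraMap (𝓞 K) K b) * B := by
    rw [hB]
    ext i
    simp [Algebra.smul_def]
  simp only [Polynomial.map_add, Polynomial.map_mul, map_C, hA2, hB2, map_mul]
  calc C (algebraMap (𝓞 K) K b) * (C (algebraMap (𝓞 K) K a) * A) *
        P.map (algebraMap (𝓞 K) K) + C (algebraMap (𝓞 K) K a) *
        (C (algebraMap (𝓞 K) K b) * B) * P'.map (algebraMap (𝓞 K) K)
      = C (algebraMap (𝓞 K) K a) * C (algebraMap (𝓞 K) K b) *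
        (A * P.map (algebraMap (𝓞 K) K) + B * P'.map (algebraMap (𝓞 K) K)) := by ring
    _ = C (algebraMap (𝓞 K) K a) * C (algebraMap (𝓞 K) K b) := by rw [hAB, mul_one]

/-- **PWC.** coprimality of the values of two different polynomials -/
theorem hv_coprime {P P' : (𝓞 K)[X]} (hP : P.Monic)
    (hP' : P'.Monic) (hi : Irreducible (P.map (algebraMap (𝓞 K) K)))
    (hi' : Irreducible (P'.map (algebraMap (𝓞 K) K))) (hne : P ≠ P') :
    ∃ r : ℕ, r ≠ 0 ∧ ∀ u V : 𝓞 K, IsCoprime u V → (r : 𝓞 K) ∣ V →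
      IsCoprime (hv P u V) (hv P' u V) := by
  have hinj : Function.Injective (algebraMap (𝓞 K) K) := FaithfulSMul.algebraMap_injective _ _
  have hcop : IsCoprime (P.map (algebraMap (𝓞 K) K)) (P'.map (algebraMap (𝓞 K) K)) := by
    rcases dvd_or_isCoprime (P.map (algebraMap (𝓞 K) K)) (P'.map (algebraMap (𝓞 K) K)) hi with
      h | h
    swap
    · exact h
    · exfalso
      have h1 : Associated (P.map (algebraMap (𝓞 K) K)) (P'.map (algebraMap (𝓞 K) K)) :=
        hi.associated_of_dvd hi' h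
      have h2 := eq_of_monic_of_associated (hP.map _) (hP'.map _) h1
      exact hne (Polynomial.map_injective _ hinj h2)
  obtain ⟨b, A, B, hb, hAB⟩ := exists_bezout hcop
  refine ⟨Ideal.absNorm (Ideal.span {b}), ?_, ?_⟩
  · rw [Ne, Ideal.absNorm_eq_zero_iff, Ideal.span_singleton_eq_bot]
    exact hb
  intro u V huV hr
  have hbr : b ∣ ((Ideal.absNorm (Ideal.span {b}) : ℕ) : 𝓞 K) := by
    rw [← Ideal.mem_span_singleton]
    exact Ideal.absNorm_mem _
  obtain ⟨c, hc⟩ := hbr.trans hr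
  by_cases hV : V = 0
  · subst hV
    have h1 : IsUnit (hv P u 0) := by
      have := coprime_hv hP huV
      rwa [isCoprime_zero_right] at this
    obtain ⟨w, hw⟩ := h1.exists_left_inv
    exact ⟨w, 0, by rw [hw]; ring⟩
  · set N := P.natDegree + P'.natDegree + A.natDegree + B.natDegree with hN
    have hV' : algebraMap (𝓞 K) K V ≠ 0 := by
      rwa [Ne, FaithfulSMul.algebraMap_eq_zero_iff]
    have key : hh A (N - P.natDegree) u V * hv P u V +
        hh B (N - P'.natDegree) u V * hv P' u V = b * V ^ N := by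
      apply hinj
      rw [map_add, map_mul, map_mul, map_mul, map_pow, coe_hh A (by omega) u V hV,
        coe_hh B (by omega) u V hV, coe_hv P u V hV, coe_hv P' u V hV]
      have h1 : (A.map (algebraMap (𝓞 K) K)).eval
          ((algebraMap (𝓞 K) K u) / (algebraMap (𝓞 K) K V)) *
          (P.map (algebraMap (𝓞 K) K)).eval
          ((algebraMap (𝓞 K) K u) / (algebraMap (𝓞 K) K V)) +
          (B.map (algebraMap (𝓞 K) K)).eval
          ((algebraMap (𝓞 K) K u) / (algebraMap (𝓞 K) K V)) *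
          (P'.map (algebraMap (𝓞 K) K)).eval
          ((algebraMap (𝓞 K) K u) / (algebraMap (𝓞 K) K V)) = algebraMap (𝓞 K) K b := by
        rw [← eval_mul, ← eval_mul, ← eval_add, ← Polynomial.map_mul, ← Polynomial.map_mul,
          ← Polynomial.map_add, hAB, map_C, eval_C]
      have h2 : (algebraMap (𝓞 K) K V) ^ N = (algebraMap (𝓞 K) K V) ^ (N - P.natDegree) *
          (algebraMap (𝓞 K) K V) ^ P.natDegree := by
        rw [← pow_add]; congr 1; omega
      have h3 : (algebraMap (𝓞 K) K V) ^ N = (algebraMap (𝓞 K) K V) ^ (N - P'.natDegree) *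
          (algebraMap (𝓞 K) K V) ^ P'.natDegree := by
        rw [← pow_add]; congr 1; omega
      rw [← h1, add_mul]
      congr 1
      · rw [h2]; ring
      · rw [h3]; ring
    obtain ⟨a1, a2, ha⟩ := (coprime_hv hP huV).pow_right (n := N + 1)
    refine ⟨a1 + a2 * c * hh A (N - P.natDegree) u V, a2 * c * hh B (N - P'.natDegree) u V, ?_⟩
    have h4 : V ^ (N + 1) = c * (hh A (N - P.natDegree) u V * hv P u V +
        hh B (N - P'.natDegree) u V * hv P' u V) := by
      rw [key, pow_succ]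
      nth_rewrite 2 [hc]
      ring
    rw [h4] at ha
    rw [← ha]
    ring

end Pool.Agent.Helper14.CB
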