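import Pool.Agent.Helper8.CB.Cof
import Pool.Agent.Helper10.TRI.Defs
import Pool.Agent.Helper56.CB.InstAux

/-!
# CB, T-TRI, piece COFG: the cofactor at a general base point
-/

set_option autoImplicit false

namespace Pool.Agent.Helper14.CB

open NumberField Polynomial Pool.Agent.Helper4.CB Pool.Agent.Helper35.CB

/-- division of a congruence modulo `m1 ^ k` by the part of `B` composed of primes of `m1` -/
theorem cong_core {m1 k J c eB gB : ℕ} {A B : ℤ}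
    (hB : B.natAbs = gB * eB) (hc : c.Coprime m1) (heB : eB.Coprime m1)
    (hgB : 2 ^ J * gB * m1 ∣ m1 ^ k) (h : ((m1 ^ k : ℕ) : ℤ) ∣ A - c * B) :
    ∃ A' : ℤ, A = gB * A' ∧ IsCoprime A' (m1 : ℤ) ∧
      ((2 ^ J : ℤ) ∣ c * eB - A' ∨ (2 ^ J : ℤ) ∣ c * eB + A') := by
  obtain ⟨w, hw⟩ := hgB
  obtain ⟨z, hz⟩ := h
  have hcop : IsCoprime ((c : ℤ) * eB) (m1 : ℤ) :=
    (Nat.isCoprime_iff_coprime.2 hc).mul_left (Nat.isCoprime_iff_coprime.2 heB)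
  have key : ∀ ε : ℤ, (ε = 1 ∨ ε = -1) → B = ε * (gB * eB) →
      ∃ A' : ℤ, A = gB * A' ∧ IsCoprime A' (m1 : ℤ) ∧
      ((2 ^ J : ℤ) ∣ c * eB - A' ∨ (2 ^ J : ℤ) ∣ c * eB + A') := by
    intro ε hε hBε
    refine ⟨c * eB * ε + (m1 : ℤ) * (2 ^ J * (w * z)), ?_, ?_, ?_⟩
    · have h1 : A = c * B + ((m1 ^ k : ℕ) : ℤ) * z := by linear_combination hz
      rw [h1, hw, hBε]
      push_cast
      ring
    · apply IsCoprime.add_mul_left_left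
      rcases hε with rfl | rfl
      · rwa [mul_one]
      · rw [mul_neg_one]
        exact hcop.neg_left
    · rcases hε with rfl | rfl
      · left
        have h1 : (c : ℤ) * eB - (c * eB * 1 + (m1 : ℤ) * (2 ^ J * (w * z))) =
            2 ^ J * (-((m1 : ℤ) * (w * z))) := by ring
        rw [h1]
        exact dvd_mul_right _ _
      · right
        have h1 : (c : ℤ) * eB + (c * eB * -1 + (m1 : ℤ) * (2 ^ J * (w * z))) =
            2 ^ J * ((m1 : ℤ) * (w * z)) := by ring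
        rw [h1]
        exact dvd_mul_right _ _
  rcases Int.natAbs_eq B with h1 | h1
  · exact key 1 (Or.inl rfl) (by rw [h1, hB]; push_cast; ring)
  · exact key (-1) (Or.inr rfl) (by rw [h1, hB]; push_cast; ring)

/-- the part of `A` prime to `m1` -/
theorem cong_part {m1 k J c eA gA eB gB : ℕ} {A B : ℤ} (hm : m1 ≠ 0)
    (hA : A.natAbs = eA * gA) (heA : eA.Coprime m1) (hgA : ∀ l : ℕ, l.Prime → l ∣ gA → l ∣ m1)
    (hB : B.natAbs = gB * eB) (hc : c.Coprime m1) (heB : eB.Coprime m1)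
    (hgB : 2 ^ J * gB * m1 ∣ m1 ^ k) (h : ((m1 ^ k : ℕ) : ℤ) ∣ A - c * B) :
    (2 ^ J : ℤ) ∣ c * eB - eA ∨ (2 ^ J : ℤ) ∣ c * eB + eA := by
  obtain ⟨A', hAA', hcop, h3⟩ := cong_core hB hc heB hgB h
  have hcop' : A'.natAbs.Coprime m1 := by
    have := Int.isCoprime_iff_gcd_eq_one.1 hcop
    rw [Int.gcd_def, Int.natAbs_natCast] at this
    exact this
  have h4 : eA * gA = gB * A'.natAbs := by
    rw [← hA, hAA', Int.natAbs_mul, Int.natAbs_natCast]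
  have hgk : gB ∣ m1 ^ k := ((dvd_mul_left _ _).trans (dvd_mul_right _ _)).trans hgB
  have h5 : gB.Coprime eA := by
    apply Nat.Coprime.symm
    exact Nat.Coprime.coprime_dvd_right hgk (heA.pow_right k)
  have h6 : gB ∣ gA := by
    apply h5.dvd_of_dvd_mul_left
    rw [h4]
    exact dvd_mul_right _ _
  obtain ⟨g', hg'⟩ := h6
  have hgB0 : gB ≠ 0 := by
    rintro rfl
    rw [zero_dvd_iff] at hgk
    exact pow_ne_zero k hm hgk
  have h7 : eA * g' = A'.natAbs := by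
    apply Nat.eq_of_mul_eq_mul_left (Nat.pos_of_ne_zero hgB0)
    rw [← h4, hg']
    ring
  have h8 : g' = 1 := by
    by_contra hne
    obtain ⟨l, hl, hlg⟩ := Nat.exists_prime_and_dvd hne
    have h9 : l ∣ m1 := hgA l hl (hlg.trans (by rw [hg']; exact dvd_mul_left _ _))
    have h10 : l ∣ A'.natAbs := hlg.trans (by rw [← h7]; exact dvd_mul_left _ _)
    have h11 := Nat.dvd_gcd h10 h9
    rw [hcop'] at h11
    exact hl.one_lt.ne' (Nat.dvd_one.1 h11)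
  rw [h8, mul_one] at h7
  rcases Int.natAbs_eq A' with h9 | h9
  · rw [h9, ← h7] at h3
    exact h3
  · rw [h9, ← h7, sub_neg_eq_add, ← sub_eq_add_neg] at h3
    exact h3.symm

variable {K : Type} [Field K] [NumberField K]

/-- a prime factor of the norm comes from a prime ideal -/
theorem exists_prime_of_dvd {b : Ideal (𝓞 K)} {l : ℕ} (hl : l.Prime)
    (h : l ∣ Ideal.absNorm b) :
    ∃ M : Ideal (𝓞 K), M.IsMaximal ∧ b ≤ M ∧ ∀ m : ℕ, (m : 𝓞 K) ∈ M ↔ l ∣ m := by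
  obtain ⟨M, hM, hu, hd⟩ := Ideal.exists_isMaximal_dvd_of_dvd_absNorm' hl b h
  refine ⟨M, hM, Ideal.dvd_iff_le.1 hd, fun m => ?_⟩
  have h1 : (m : ℤ) ∈ M.under ℤ ↔ (m : 𝓞 K) ∈ M := by
    rw [Ideal.under_def, Ideal.mem_comap]
    simp
  rw [← h1, hu, Ideal.mem_span_singleton]
  exact Int.natCast_dvd_natCast

theorem norm_cong {m1 k r e : ℕ} {x y : 𝓞 K}
    (hx : ((m1 ^ k : ℕ) : 𝓞 K) ∣ x - (r : 𝓞 K) ^ e * y) :
    ((m1 ^ k : ℕ) : ℤ) ∣ Algebra.norm ℤ x -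
      ((r ^ (e * Module.finrank ℚ K) : ℕ) : ℤ) * Algebra.norm ℤ y := by
  have h1 := Helper8.CB.norm_congr (K := K) (m1 ^ k) hx
  rw [map_mul, map_pow, Helper8.CB.norm_natCast, ← pow_mul, mul_comm _ e] at h1
  push_cast at h1 ⊢
  exact h1

theorem ne_zero_gen {J m1 k r d : ℕ} {y : 𝓞 K} {c e : ℕ} (h2 : 2 ∣ m1)
    (hN : (Algebra.norm ℤ y).natAbs = c * e) (he : e.Coprime m1) (hc0 : c ≠ 0)
    (hc : 2 ^ J * c * m1 ∣ m1 ^ k) (hr : r.Coprime m1)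
    {x : 𝓞 K} (hx : ((m1 ^ k : ℕ) : 𝓞 K) ∣ x - (r : 𝓞 K) ^ d * y) : x ≠ 0 := by
  rintro rfl
  obtain ⟨A', hA, hcop, -⟩ := cong_core hN (hr.pow_left _) he hc (norm_cong hx)
  rw [Algebra.norm_zero] at hA
  have hg0 : (c : ℤ) ≠ 0 := by exact_mod_cast hc0
  have hA0 : A' = 0 := by
    rcases mul_eq_zero.1 hA.symm with h | h
    · exact absurd h hg0
    · exact h
  rw [hA0, isCoprime_zero_left] at hcop
  have h3 := Int.isUnit_iff_natAbs_eq.1 hcop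
  rw [Int.natAbs_natCast] at h3
  omega

/-- **C2.** the cofactor: `N y = ± c e`, `c` divides a power of `m1`, `e` prime to `m1` -/
theorem cofactor_gen {J m1 k r d : ℕ} {y : 𝓞 K} {c e : ℕ} (h2 : 2 ∣ m1) (hm1 : m1 ≠ 0)
    (hN : (Algebra.norm ℤ y).natAbs = c * e) (he : e.Coprime m1) (hc0 : c ≠ 0)
    (hc : 2 ^ J * c * m1 ∣ m1 ^ k) (hr : r.Coprime m1)
    (hr1 : ¬ ((2 ^ J : ℕ) : ℤ) ∣ (r : ℤ) ^ (d * Module.finrank ℚ K) * e - 1)
    (hr2 : ¬ ((2 ^ J : ℕ) : ℤ) ∣ (r : ℤ) ^ (d * Module.finrank ℚ K) * e + 1)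
    {x : 𝓞 K} (hx : ((m1 ^ k : ℕ) : 𝓞 K) ∣ x - (r : 𝓞 K) ^ d * y) (q : Pl K)
    (hq : nm q ≡ 1 [MOD 2 ^ J]) (hmq : (m1 : 𝓞 K) ∉ q.asIdeal) (hxq : x ∈ q.asIdeal) :
    ∃ q' : Pl K, (m1 : 𝓞 K) ∉ q'.asIdeal ∧ x ∈ q'.asIdeal ∧
      nm q' * nm q ≤ (Algebra.norm ℤ x).natAbs := by
  have hx0 : x ≠ 0 := ne_zero_gen h2 hN he hc0 hc hr hx
  obtain ⟨b, hb⟩ := (Ideal.dvd_span_singleton.2 hxq : q.asIdeal ∣ Ideal.span {x})
  have hspan : Ideal.span {x} ≠ ⊥ := by rwa [Ne, Ideal.span_singleton_eq_bot]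
  have hb0 : b ≠ ⊥ := by
    rintro rfl
    apply hspan
    rw [hb, Ideal.mul_bot]
  have hxb : x ∈ b := by
    have h1 : Ideal.span {x} ≤ b := by
      rw [hb]
      exact Ideal.mul_le_right (I := q.asIdeal) (J := b)
    exact h1 (Ideal.mem_span_singleton_self x)
  have hnorm : (Algebra.norm ℤ x).natAbs = nm q * Ideal.absNorm b := by
    rw [← Ideal.absNorm_span_singleton, hb, map_mul]
    rfl
  by_cases hex : ∃ M : Ideal (𝓞 K), M.IsMaximal ∧ b ≤ M ∧ (m1 : 𝓞 K) ∉ M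
  · obtain ⟨M, hM, hbM, hm1M⟩ := hex
    have hM0 : M ≠ ⊥ := by
      rintro rfl
      exact hb0 (le_bot_iff.1 hbM)
    refine ⟨⟨M, hM.isPrime, hM0⟩, hm1M, hbM hxb, ?_⟩
    rw [hnorm, mul_comm]
    refine Nat.mul_le_mul_left _ (Nat.le_of_dvd ?_ (Ideal.absNorm_dvd_absNorm_of_le hbM))
    rw [Nat.pos_iff_ne_zero, Ne, Ideal.absNorm_eq_zero_iff]
    exact hb0
  · exfalso
    push Not at hex
    have hgb : ∀ l : ℕ, l.Prime → l ∣ Ideal.absNorm b → l ∣ m1 := by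
      intro l hl hlb
      obtain ⟨M, hM, hbM, hMl⟩ := exists_prime_of_dvd hl hlb
      exact (hMl m1).1 (hex M hM hbM)
    have hnq : (nm q).Coprime m1 := by
      rw [Nat.coprime_iff_gcd_eq_one]
      by_contra hne
      obtain ⟨l, hl, hlg⟩ := Nat.exists_prime_and_dvd hne
      have h1 : l ∣ nm q := hlg.trans (Nat.gcd_dvd_left _ _)
      have h3 : l ∣ m1 := hlg.trans (Nat.gcd_dvd_right _ _)
      obtain ⟨M, hM, hqM, hMl⟩ := exists_prime_of_dvd hl h1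
      have h4 : q.asIdeal = M := q.isMaximal.eq_of_le hM.ne_top hqM
      apply hmq
      rw [h4]
      exact (hMl m1).2 h3
    have hq' : (2 ^ J : ℤ) ∣ (nm q : ℤ) - 1 := by
      have := (Nat.modEq_iff_dvd.1 hq.symm)
      push_cast at this
      exact this
    push_cast at hr1 hr2
    rcases cong_part hm1 hnorm hnq hgb hN (hr.pow_left (d * Module.finrank ℚ K)) he hc
      (norm_cong hx) with h | h
    · apply hr1
      have h1 := dvd_add h hq'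
      push_cast at h1
      have h3 : (r : ℤ) ^ (d * Module.finrank ℚ K) * (e : ℤ) - (nm q : ℤ) + ((nm q : ℤ) - 1) =
          (r : ℤ) ^ (d * Module.finrank ℚ K) * e - 1 := by ring
      rwa [h3] at h1
    · apply hr2
      have h1 := dvd_sub h hq'
      push_cast at h1
      have h3 : (r : ℤ) ^ (d * Module.finrank ℚ K) * (e : ℤ) + (nm q : ℤ) - ((nm q : ℤ) - 1) =
          (r : ℤ) ^ (d * Module.finrank ℚ K) * e + 1 := by ring
      rwa [h3] at h1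

/-- choice of the exponent `j` -/
theorem exists_exponent {ι : Type*} (S : Finset ι) (D J : ℕ) (hS : S.card ≤ D) (a : ι → ℕ)
    (c : ι → ℤ) (ha : ∀ i ∈ S, 1 ≤ a i) (hJ : ∀ i ∈ S, 5 ^ (D * a i) + 2 < 2 ^ J) (r0 : ℕ)
    (hr : r0 ≡ 5 [MOD 2 ^ J]) :
    ∃ j : ℕ, 1 ≤ j ∧ j ≤ D + 1 ∧ ∀ i ∈ S, ¬ (2 ^ J : ℤ) ∣ ((r0 ^ j : ℕ) : ℤ) ^ a i * c i - 1 ∧
      ¬ (2 ^ J : ℤ) ∣ ((r0 ^ j : ℕ) : ℤ) ^ a i * c i + 1 := by
  classical
  by_contra hcon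
  push Not at hcon
  obtain ⟨i0, -, -⟩ := hcon 1 le_rfl (by omega)
  have : Nonempty ι := ⟨i0⟩
  have h1 : ∀ j ∈ Finset.Icc 1 (D + 1), ∃ i ∈ S, ∃ ε : ℤ, (ε = 1 ∨ ε = -1) ∧
      (2 ^ J : ℤ) ∣ ((r0 ^ j : ℕ) : ℤ) ^ a i * c i - ε := by
    intro j hj
    rw [Finset.mem_Icc] at hj
    obtain ⟨i, hi, h2⟩ := hcon j hj.1 hj.2
    by_cases h3 : (2 ^ J : ℤ) ∣ ((r0 ^ j : ℕ) : ℤ) ^ a i * c i - 1
    · exact ⟨i, hi, 1, Or.inl rfl, h3⟩
    · exact ⟨i, hi, -1, Or.inr rfl, by rw [sub_neg_eq_add]; exact h2 h3⟩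
  choose! F hF ε hε hFε using h1
  have hmaps : Set.MapsTo F (↑(Finset.Icc 1 (D + 1)) : Set ℕ) (↑S : Set ι) := by
    intro j hj
    exact hF j (Finset.mem_coe.1 hj)
  obtain ⟨j, hj, j', hj', hne, hFF⟩ := Finset.exists_ne_map_eq_of_card_lt_of_maps_to
    (by rw [Nat.card_Icc]; omega : S.card < (Finset.Icc 1 (D + 1)).card) hmaps
  wlog hlt : j < j' generalizing j j'
  · exact this j' hj' j hj hne.symm hFF.symm (by omega)
  rw [Finset.mem_Icc] at hj hj'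
  have hjS := hF j (Finset.mem_Icc.2 hj)
  set i := F j with hi
  have e1 := hFε j (Finset.mem_Icc.2 hj)
  have e2 := hFε j' (Finset.mem_Icc.2 hj')
  rw [← hFF] at e2
  rw [← hi] at e1
  have hr5 : (2 ^ J : ℤ) ∣ (r0 : ℤ) - 5 := by
    have := (Nat.modEq_iff_dvd.1 hr.symm)
    push_cast at this
    exact this
  -- powers of five
  have hp : ∀ s : ℕ, (2 ^ J : ℤ) ∣ (r0 : ℤ) ^ s - 5 ^ s := fun s =>
    hr5.trans (sub_dvd_pow_sub_pow _ _ _)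
  have e3 : (2 ^ J : ℤ) ∣ (r0 : ℤ) ^ ((j' - j) * a i) * ε j - ε j' := by
    have h3 : (r0 : ℤ) ^ (j' * a i) = (r0 : ℤ) ^ ((j' - j) * a i) * (r0 : ℤ) ^ (j * a i) := by
      rw [← pow_add, ← add_mul]
      congr 2
      omega
    have h4 : (r0 : ℤ) ^ ((j' - j) * a i) * ε j - ε j' =
        (((r0 ^ j' : ℕ) : ℤ) ^ a i * c i - ε j') -
        (r0 : ℤ) ^ ((j' - j) * a i) * (((r0 ^ j : ℕ) : ℤ) ^ a i * c i - ε j) := by
      push_cast
      rw [← pow_mul, ← pow_mul, h3]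
      ring
    rw [h4]
    exact dvd_sub e2 (e1.mul_left _)
  have e4 : (2 ^ J : ℤ) ∣ 5 ^ ((j' - j) * a i) * ε j - ε j' := by
    have h3 := dvd_sub e3 ((hp ((j' - j) * a i)).mul_right (ε j))
    have h4 : (r0 : ℤ) ^ ((j' - j) * a i) * ε j - ε j' -
        ((r0 : ℤ) ^ ((j' - j) * a i) - 5 ^ ((j' - j) * a i)) * ε j =
        5 ^ ((j' - j) * a i) * ε j - ε j' := by ring
    rwa [h4] at h3
  have hJ' : (5 : ℤ) ^ (D * a i) + 2 < 2 ^ J := by exact_mod_cast hJ i hjS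
  have h5 : (5 : ℤ) ^ ((j' - j) * a i) ≤ 5 ^ (D * a i) :=
    pow_le_pow_right₀ (by norm_num) (Nat.mul_le_mul_right _ (by omega))
  have h6 : (5 : ℤ) ≤ 5 ^ ((j' - j) * a i) := by
    have h7 : 1 ≤ (j' - j) * a i := Nat.mul_pos (by omega) (ha i hjS)
    calc (5 : ℤ) = 5 ^ 1 := (pow_one _).symm
      _ ≤ _ := pow_le_pow_right₀ (by norm_num) h7
  have fin : ∀ δ : ℤ, (δ = 1 ∨ δ = -1) → ¬ (2 ^ J : ℤ) ∣ 5 ^ ((j' - j) * a i) - δ := by
    intro δ hδ h7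
    rcases hδ with rfl | rfl
    · have := Int.le_of_dvd (by linarith) h7
      linarith
    · have := Int.le_of_dvd (by linarith) h7
      linarith
  rcases hε j (Finset.mem_Icc.2 hj) with h7 | h7 <;> rcases hε j' (Finset.mem_Icc.2 hj') with h8 | h8
  · rw [h7, h8, mul_one] at e4
    exact fin 1 (Or.inl rfl) e4
  · rw [h7, h8, mul_one] at e4
    exact fin (-1) (Or.inr rfl) e4
  · rw [h7, h8, mul_neg_one] at e4
    apply fin (-1) (Or.inr rfl)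
    have : (5 : ℤ) ^ ((j' - j) * a i) - -1 = -(-5 ^ ((j' - j) * a i) - 1) := by ring
    rw [this, dvd_neg]
    exact e4
  · rw [h7, h8, mul_neg_one] at e4
    apply fin 1 (Or.inl rfl)
    have : (5 : ℤ) ^ ((j' - j) * a i) - 1 = -(-5 ^ ((j' - j) * a i) - -1) := by ring
    rw [this, dvd_neg]
    exact e4

/-- **C1.** every pair `(d, e)` excludes at most one `j` -/
theorem exists_j (n D dm : ℕ) (hn : 1 ≤ n) : ∃ J1 : ℕ, ∀ J : ℕ, J1 ≤ J →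
    ∀ E : Finset (ℕ × ℕ), E.card ≤ D → (∀ x ∈ E, 1 ≤ x.1 ∧ x.1 ≤ dm) →
    ∃ j : ℕ, 1 ≤ j ∧ j ≤ D + 1 ∧ ∀ x ∈ E,
      ¬ ((2 ^ J : ℕ) : ℤ) ∣ 5 ^ (j * x.1 * n) * x.2 - 1 ∧
      ¬ ((2 ^ J : ℕ) : ℤ) ∣ 5 ^ (j * x.1 * n) * x.2 + 1 := by
  refine ⟨3 * (D * (dm * n)) + 3, fun J hJ E hE hEx => ?_⟩
  have hside : ∀ x ∈ E, 5 ^ (D * (x.1 * n)) + 2 < 2 ^ J := by
    intro x hx
    have h1 : D * (x.1 * n) ≤ D * (dm * n) :=
      Nat.mul_le_mul_left _ (Nat.mul_le_mul_right _ (hEx x hx).2)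
    have h2 : 5 ^ (D * (x.1 * n)) ≤ 2 ^ (3 * (D * (dm * n))) := by
      calc 5 ^ (D * (x.1 * n)) ≤ 5 ^ (D * (dm * n)) := Nat.pow_le_pow_right (by norm_num) h1
        _ ≤ 8 ^ (D * (dm * n)) := Nat.pow_le_pow_left (by norm_num) _
        _ = (2 ^ 3) ^ (D * (dm * n)) := by norm_num
        _ = 2 ^ (3 * (D * (dm * n))) := (pow_mul 2 3 _).symm
    have h3 : 2 ^ (3 * (D * (dm * n)) + 3) ≤ 2 ^ J := Nat.pow_le_pow_right (by norm_num) hJ
    have h4 : 2 ^ (3 * (D * (dm * n)) + 3) = 2 ^ (3 * (D * (dm * n))) * 8 := by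
      rw [pow_add]; norm_num
    have h5 : 1 ≤ 2 ^ (3 * (D * (dm * n))) := Nat.one_le_two_pow
    omega
  obtain ⟨j, hj1, hj2, hj3⟩ := exists_exponent E D J hE (fun x => x.1 * n) (fun x => (x.2 : ℤ))
    (fun x hx => Nat.mul_pos (hEx x hx).1 hn) hside 5 rfl
  refine ⟨j, hj1, hj2, fun x hx => ?_⟩
  have h := hj3 x hx
  push_cast at h ⊢
  rw [← pow_mul] at h
  rw [mul_assoc]
  exact h

/-- the part of a number composed of primes of `m1` -/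
theorem exists_split (m1 : ℕ) : ∀ N : ℕ, N ≠ 0 → ∃ c e t : ℕ, N = c * e ∧ e.Coprime m1 ∧
    c ≠ 0 ∧ c ∣ m1 ^ t := by
  intro N
  induction N using Nat.strong_induction_on with
  | _ N ih =>
    intro hN
    by_cases hco : N.Coprime m1
    · exact ⟨1, N, 0, by ring, hco, one_ne_zero, one_dvd _⟩
    · obtain ⟨l, hl, hlg⟩ := Nat.exists_prime_and_dvd hco
      obtain ⟨N', hN'⟩ := hlg.trans (Nat.gcd_dvd_left _ _)
      have hN'0 : N' ≠ 0 := by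
        rintro rfl
        rw [mul_zero] at hN'
        exact hN hN'
      have hlt : N' < N := by
        rw [hN']
        have := hl.two_le
        nlinarith [Nat.pos_of_ne_zero hN'0]
      obtain ⟨c, e, t, h1, h2, h3, h4⟩ := ih N' hlt hN'0
      refine ⟨l * c, e, t + 1, by rw [hN', h1, mul_assoc], h2, mul_ne_zero hl.ne_zero h3, ?_⟩
      rw [pow_succ']
      exact mul_dvd_mul (hlg.trans (Nat.gcd_dvd_right _ _)) h4

theorem hv_cong {P : (𝓞 K)[X]} {M u v r : 𝓞 K} (hu : M ∣ u - r) (hv' : M ∣ v - r) :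
    M ∣ hv P u v - r ^ P.natDegree * P.eval 1 := by
  have h1 : hv P u v = ∑ i ∈ Finset.range (P.natDegree + 1),
      P.coeff i * (v ^ (P.natDegree - i) * u ^ i) := by
    unfold hv
    rw [eval_eq_sum_range, natDegree_scaleRoots]
    refine Finset.sum_congr rfl fun i hi => ?_
    rw [coeff_scaleRoots]
    ring
  have h2 : r ^ P.natDegree * P.eval 1 = ∑ i ∈ Finset.range (P.natDegree + 1),
      P.coeff i * (r ^ (P.natDegree - i) * r ^ i) := by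
    rw [eval_eq_sum_range, Finset.mul_sum]
    refine Finset.sum_congr rfl fun i hi => ?_
    rw [Finset.mem_range] at hi
    rw [← pow_add, one_pow, mul_one]
    have : P.natDegree - i + i = P.natDegree := by omega
    rw [this]
    ring
  rw [h1, h2, ← Finset.sum_sub_distrib]
  refine Finset.dvd_sum fun i hi => ?_
  rw [← mul_sub]
  refine Dvd.dvd.mul_left ?_ _
  have h3 : v ^ (P.natDegree - i) * u ^ i - r ^ (P.natDegree - i) * r ^ i =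
      (v ^ (P.natDegree - i) - r ^ (P.natDegree - i)) * u ^ i +
        r ^ (P.natDegree - i) * (u ^ i - r ^ i) := by ring
  rw [h3]
  exact dvd_add ((hv'.trans (sub_dvd_pow_sub_pow _ _ _)).mul_right _)
    ((hu.trans (sub_dvd_pow_sub_pow _ _ _)).mul_left _)

/-- **C.** -/
theorem exists_base (K : Type) [Field K] [NumberField K] (D dm : ℕ) : ∃ J1 : ℕ, ∀ J : ℕ, J1 ≤ J →
    ∀ S : Finset (𝓞 K)[X], S.card ≤ D →
    (∀ P ∈ S, P.Monic ∧ 1 ≤ P.natDegree ∧ P.natDegree ≤ dm ∧ P.eval 1 ≠ 0) →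
    ∀ m1 : ℕ, m1 ≠ 0 → 2 ∣ m1 → ∃ k r : ℕ, 1 ≤ k ∧ r.Coprime m1 ∧ ∀ u v : 𝓞 K,
      ((m1 ^ k : ℕ) : 𝓞 K) ∣ u - (r : 𝓞 K) → ((m1 ^ k : ℕ) : 𝓞 K) ∣ v - (r : 𝓞 K) →
      v ≠ 0 ∧ (∀ P ∈ S, hv P u v ≠ 0) ∧
      ∀ q : Pl K, nm q ≡ 1 [MOD 2 ^ J] → (m1 : 𝓞 K) ∉ q.asIdeal →
        (v ∈ q.asIdeal → ∃ q' : Pl K, (m1 : 𝓞 K) ∉ q'.asIdeal ∧ v ∈ q'.asIdeal ∧
          nm q' * nm q ≤ (Algebra.norm ℤ v).natAbs) ∧
        ∀ P ∈ S, hv P u v ∈ q.asIdeal → ∃ q' : Pl K, (m1 : 𝓞 K) ∉ q'.asIdeal ∧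
          hv P u v ∈ q'.asIdeal ∧ nm q' * nm q ≤ (Algebra.norm ℤ (hv P u v)).natAbs := by
  classical
  obtain ⟨J1, hJ1⟩ := exists_j (Module.finrank ℚ K) (D + 1) (max dm 1) Module.finrank_pos
  refine ⟨J1, fun J hJ S hS hSP m1 hm1 h2 => ?_⟩
  have hsplit : ∀ P ∈ S, ∃ c e t : ℕ, (Algebra.norm ℤ (P.eval 1)).natAbs = c * e ∧
      e.Coprime m1 ∧ c ≠ 0 ∧ c ∣ m1 ^ t := by
    intro P hP
    refine exists_split m1 _ ?_
    rw [Ne, Int.natAbs_eq_zero, Algebra.norm_eq_zero_iff]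
    exact (hSP P hP).2.2.2
  choose! c e t hN he hc0 hct using hsplit
  obtain ⟨j, hj1, -, hj2⟩ := hJ1 J hJ (insert (1, 1) (S.image (fun P => (P.natDegree, e P)))) (by
    refine (Finset.card_insert_le _ _).trans ?_
    have := Finset.card_image_le (s := S) (f := fun P => (P.natDegree, e P))
    omega) (by
    intro x hx
    rw [Finset.mem_insert, Finset.mem_image] at hx
    rcases hx with rfl | ⟨P, hP, rfl⟩
    · exact ⟨le_rfl, le_max_right _ _⟩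
    · exact ⟨(hSP P hP).2.1, (hSP P hP).2.2.1.trans (le_max_left _ _)⟩)
  obtain ⟨r0, hr0, -, hr0m, -⟩ := Helper56.CB.exists_r J m1 (Nat.pos_of_ne_zero hm1)
  have hr0m1 : r0.Coprime m1 := Nat.Coprime.coprime_dvd_right (dvd_mul_right _ _) hr0m
  have hr5 : ((2 ^ J : ℕ) : ℤ) ∣ (r0 : ℤ) - 5 := (Nat.modEq_iff_dvd.1 hr0.symm)
  have htr : ∀ (d f : ℕ) (δ : ℤ),
      ¬ ((2 ^ J : ℕ) : ℤ) ∣ 5 ^ (j * d * Module.finrank ℚ K) * f - δ →
      ¬ ((2 ^ J : ℕ) : ℤ) ∣ ((r0 ^ j : ℕ) : ℤ) ^ (d * Module.finrank ℚ K) * f - δ := by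
    intro d f δ h1 h3
    apply h1
    have h4 : ((2 ^ J : ℕ) : ℤ) ∣ (r0 : ℤ) ^ (j * d * Module.finrank ℚ K) -
        5 ^ (j * d * Module.finrank ℚ K) := hr5.trans (sub_dvd_pow_sub_pow _ _ _)
    have h5 := dvd_sub h3 (h4.mul_right (f : ℤ))
    have h6 : ((r0 ^ j : ℕ) : ℤ) ^ (d * Module.finrank ℚ K) =
        (r0 : ℤ) ^ (j * d * Module.finrank ℚ K) := by
      push_cast
      rw [← pow_mul, mul_assoc]
    have h7 : ((r0 ^ j : ℕ) : ℤ) ^ (d * Module.finrank ℚ K) * f - δ -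
        ((r0 : ℤ) ^ (j * d * Module.finrank ℚ K) - 5 ^ (j * d * Module.finrank ℚ K)) * f =
        5 ^ (j * d * Module.finrank ℚ K) * f - δ := by
      rw [h6]
      ring
    rwa [h7] at h5
  have hk : ∀ P ∈ S, 2 ^ J * c P * m1 ∣ m1 ^ (J + (∑ P ∈ S, t P) + 1) := by
    intro P hP
    rw [pow_succ, pow_add]
    refine mul_dvd_mul (mul_dvd_mul (pow_dvd_pow_of_dvd h2 J) ?_) dvd_rfl
    exact (hct P hP).trans (pow_dvd_pow m1 (Finset.single_le_sum (f := t)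
      (fun _ _ => Nat.zero_le _) hP))
  have hk1 : 2 ^ J * 1 * m1 ∣ m1 ^ (J + (∑ P ∈ S, t P) + 1) := by
    rw [pow_succ, pow_add]
    exact mul_dvd_mul (mul_dvd_mul (pow_dvd_pow_of_dvd h2 J) (one_dvd _)) dvd_rfl
  have hone : (Algebra.norm ℤ (1 : 𝓞 K)).natAbs = 1 * 1 := by
    rw [map_one]; rfl
  have hrj : (r0 ^ j).Coprime m1 := hr0m1.pow_left j
  refine ⟨J + (∑ P ∈ S, t P) + 1, r0 ^ j, by omega, hrj, fun u v hu hv' => ?_⟩
  have hvx : ((m1 ^ (J + (∑ P ∈ S, t P) + 1) : ℕ) : 𝓞 K) ∣ v - ((r0 ^ j : ℕ) : 𝓞 K) ^ 1 * 1 := by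
    rw [pow_one, mul_one]
    exact hv'
  have hPx : ∀ P ∈ S, ((m1 ^ (J + (∑ P ∈ S, t P) + 1) : ℕ) : 𝓞 K) ∣
      hv P u v - ((r0 ^ j : ℕ) : 𝓞 K) ^ P.natDegree * P.eval 1 := fun P _ => hv_cong hu hv'
  have hj3 : ∀ (d f : ℕ), (d, f) ∈ insert (1, 1) (S.image (fun P => (P.natDegree, e P))) →
      (¬ ((2 ^ J : ℕ) : ℤ) ∣ ((r0 ^ j : ℕ) : ℤ) ^ (d * Module.finrank ℚ K) * f - 1 ∧
      ¬ ((2 ^ J : ℕ) : ℤ) ∣ ((r0 ^ j : ℕ) : ℤ) ^ (d * Module.finrank ℚ K) * f + 1) := by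
    intro d f hdf
    have h1 := hj2 (d, f) hdf
    refine ⟨htr d f 1 h1.1, ?_⟩
    have h3 := htr d f (-1) (by rw [sub_neg_eq_add]; exact h1.2)
    rwa [sub_neg_eq_add] at h3
  have hj3v := hj3 1 1 (Finset.mem_insert_self _ _)
  have hj3P : ∀ P ∈ S, _ := fun P hP => hj3 P.natDegree (e P)
    (Finset.mem_insert_of_mem (Finset.mem_image_of_mem (fun P => (P.natDegree, e P)) hP))
  refine ⟨ne_zero_gen h2 hone (Nat.coprime_one_left m1) one_ne_zero hk1 hrj hvx,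
    fun P hP => ne_zero_gen h2 (hN P hP) (he P hP) (hc0 P hP) (hk P hP) hrj (hPx P hP),
    fun q hq hmq => ⟨fun hvq => ?_, fun P hP hPq => ?_⟩⟩
  · exact cofactor_gen h2 hm1 hone (Nat.coprime_one_left m1) one_ne_zero hk1 hrj hj3v.1 hj3v.2
      hvx q hq hmq hvq
  · exact cofactor_gen h2 hm1 (hN P hP) (he P hP) (hc0 P hP) (hk P hP) hrj (hj3P P hP).1
      (hj3P P hP).2 (hPx P hP) q hq hmq hPq

end Pool.Agent.Helper14.CB
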