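import Pool.Agent.Helper14.CB.CofG
import Pool.Agent.Helper35.CB.Glue

/-!
# CB, T-TRI: the cofactor as an ideal, with the class of its norm
-/

set_option autoImplicit false

namespace Pool.Agent.Helper14.CB

open NumberField Polynomial Pool.Agent.Helper4.CB Pool.Agent.Helper35.CB

variable {K : Type} [Field K] [NumberField K]

/-- the factor of an ideal prime to `m1` -/
theorem exists_split_ideal {m1 : ℕ} : ∀ (N : ℕ) (b : Ideal (𝓞 K)), b ≠ ⊥ →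
    Ideal.absNorm b = N → ∃ I I' : Ideal (𝓞 K), b = I * I' ∧
      I ⊔ Ideal.span {(m1 : 𝓞 K)} = ⊤ ∧
      ∀ l : ℕ, l.Prime → l ∣ Ideal.absNorm I' → l ∣ m1 := by
  intro N
  induction N using Nat.strong_induction_on with
  | _ N ih =>
    intro b hb hN
    by_cases hco : b ⊔ Ideal.span {(m1 : 𝓞 K)} = ⊤
    · refine ⟨b, ⊤, by rw [Ideal.mul_top], hco, fun l hl h => ?_⟩
      rw [Ideal.absNorm_top] at h
      exact absurd (Nat.dvd_one.1 h) hl.one_lt.ne'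
    · obtain ⟨M, hM, hle⟩ := Ideal.exists_le_maximal _ hco
      obtain ⟨b', hb'⟩ := Ideal.dvd_iff_le.2 (le_sup_left.trans hle)
      have hm1M : (m1 : 𝓞 K) ∈ M :=
        hle (Ideal.mem_sup_right (Ideal.mem_span_singleton_self _))
      have hb'0 : b' ≠ ⊥ := by
        rintro rfl
        apply hb
        rw [hb', Ideal.mul_bot]
      have hM1 : Ideal.absNorm M ≠ 1 := by
        rw [Ne, Ideal.absNorm_eq_one_iff]
        exact hM.ne_top
      have hM0 : Ideal.absNorm M ≠ 0 := by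
        rw [Ne, Ideal.absNorm_eq_zero_iff]
        rintro rfl
        apply hb
        rw [hb', Ideal.bot_mul]
      have hn' : Ideal.absNorm b' ≠ 0 := by
        rwa [Ne, Ideal.absNorm_eq_zero_iff]
      have hlt : Ideal.absNorm b' < N := by
        rw [← hN, hb', map_mul]
        have h1 : 2 ≤ Ideal.absNorm M := by omega
        nlinarith [Nat.pos_of_ne_zero hn']
      obtain ⟨I, I'', h1, h2, h3⟩ := ih _ hlt b' hb'0 rfl
      refine ⟨I, M * I'', by rw [hb', h1]; ring, h2, fun l hl h => ?_⟩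
      rw [map_mul] at h
      rcases hl.dvd_mul.1 h with h | h
      · obtain ⟨M', hM', hMM', hl'⟩ := exists_prime_of_dvd hl h
        have h4 : M = M' := hM.eq_of_le hM'.ne_top hMM'
        rw [← h4] at hl'
        exact (hl' m1).1 hm1M
      · exact h3 l hl h

/-- the cofactor property with the class of the norm -/
def CofI {K : Type} [Field K] [NumberField K] (m M : ℕ) (a : ZMod M) (x : 𝓞 K) : Prop :=
  ∀ q : Pl K, (m : 𝓞 K) ∉ q.asIdeal → nm q ≡ 1 [MOD M] → x ∈ q.asIdeal →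
    ∃ I : {I : Ideal (𝓞 K) // I ≠ ⊥ ∧ I ⊔ Ideal.span {(m : 𝓞 K)} = ⊤}, I.1 ≠ ⊤ ∧ x ∈ I.1 ∧
      Ideal.absNorm I.1 * nm q ≤ (Algebra.norm ℤ x).natAbs ∧
      (((Ideal.absNorm I.1 : ℕ) : ZMod M) = a ∨ ((Ideal.absNorm I.1 : ℕ) : ZMod M) = - a)

theorem CofI.cofac {m M : ℕ} {a : ZMod M} {x : 𝓞 K} (h : CofI m M a x) : Cofac m M x := by
  intro q hmq hq hxq
  obtain ⟨I, hI1, hxI, hle, -⟩ := h q hmq hq hxq
  obtain ⟨M', hM', hIM⟩ := Ideal.exists_le_maximal _ hI1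
  have hM0 : M' ≠ ⊥ := by
    rintro rfl
    exact I.2.1 (le_bot_iff.1 hIM)
  have hmM : (m : 𝓞 K) ∉ M' := by
    intro h0
    apply hM'.ne_top
    rw [eq_top_iff, ← I.2.2]
    exact sup_le hIM ((Ideal.span_singleton_le_iff_mem _).2 h0)
  refine ⟨⟨⟨M', hM'.isPrime, hM0⟩, hmM⟩, hIM hxI, le_trans ?_ hle⟩
  refine Nat.mul_le_mul_right _ (Nat.le_of_dvd ?_ (Ideal.absNorm_dvd_absNorm_of_le hIM))
  rw [Nat.pos_iff_ne_zero, Ne, Ideal.absNorm_eq_zero_iff]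
  exact I.2.1

/-- **C2I.** the cofactor as an ideal: `N y = ± c e`, `c` divides a power of `m1`, `e` prime to
`m1` -/
theorem cofI_gen {J m1 k r d : ℕ} {y : 𝓞 K} {c e : ℕ} (h2 : 2 ∣ m1) (hm1 : m1 ≠ 0)
    (hN : (Algebra.norm ℤ y).natAbs = c * e) (he : e.Coprime m1) (hc0 : c ≠ 0)
    (hc : 2 ^ J * c * m1 ∣ m1 ^ k) (hr : r.Coprime m1)
    (hr1 : ¬ ((2 ^ J : ℕ) : ℤ) ∣ (r : ℤ) ^ (d * Module.finrank ℚ K) * e - 1)
    (hr2 : ¬ ((2 ^ J : ℕ) : ℤ) ∣ (r : ℤ) ^ (d * Module.finrank ℚ K) * e + 1)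
    {x : 𝓞 K} (hx : ((m1 ^ k : ℕ) : 𝓞 K) ∣ x - (r : 𝓞 K) ^ d * y) :
    CofI (m1 ^ k) (2 ^ J) ((r : ZMod (2 ^ J)) ^ (d * Module.finrank ℚ K) * e) x := by
  intro q hmq' hq hxq
  have hmq : (m1 : 𝓞 K) ∉ q.asIdeal := by
    intro h0
    apply hmq'
    have hk0 : k ≠ 0 := by
      rintro rfl
      rw [pow_zero, Nat.dvd_one] at hc
      have h1 : m1 = 1 := Nat.eq_one_of_mul_eq_one_left hc
      omega
    push_cast
    exact Ideal.pow_mem_of_mem _ h0 k (Nat.pos_of_ne_zero hk0)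
  have hx0 : x ≠ 0 := ne_zero_gen h2 hN he hc0 hc hr hx
  obtain ⟨b, hb⟩ := (Ideal.dvd_span_singleton.2 hxq : q.asIdeal ∣ Ideal.span {x})
  have hspan : Ideal.span {x} ≠ ⊥ := by rwa [Ne, Ideal.span_singleton_eq_bot]
  have hb0 : b ≠ ⊥ := by
    rintro rfl
    apply hspan
    rw [hb, Ideal.mul_bot]
  have hxb : x ∈ b := by
    have h1 : Ideal.span {x} ≤ b := by
      rw [hb]
      exact Ideal.mul_le_right (I := q.asIdeal) (J := b)
    exact h1 (Ideal.mem_span_singleton_self x)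
  obtain ⟨I, I', hII, hIco, hI'⟩ := exists_split_ideal (m1 := m1) _ b hb0 rfl
  have hnorm : (Algebra.norm ℤ x).natAbs = nm q * Ideal.absNorm I * Ideal.absNorm I' := by
    rw [← Ideal.absNorm_span_singleton, hb, hII, map_mul, map_mul, mul_assoc]
    rfl
  have hxI : x ∈ I := by
    have h1 : b ≤ I := by
      rw [hII]
      exact Ideal.mul_le_left (I := I) (J := I')
    exact h1 hxb
  have hI0 : I ≠ ⊥ := by
    rintro rfl
    apply hb0
    rw [hII, Ideal.bot_mul]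
  have hcopI : (Ideal.absNorm I).Coprime m1 := by
    rw [Nat.coprime_iff_gcd_eq_one]
    by_contra hne
    obtain ⟨l, hl, hlg⟩ := Nat.exists_prime_and_dvd hne
    obtain ⟨M, hM, hqM, hMl⟩ := exists_prime_of_dvd hl (hlg.trans (Nat.gcd_dvd_left _ _))
    apply hM.ne_top
    rw [eq_top_iff, ← hIco]
    exact sup_le hqM ((Ideal.span_singleton_le_iff_mem _).2
      ((hMl m1).2 (hlg.trans (Nat.gcd_dvd_right _ _))))
  have hnq : (nm q).Coprime m1 := by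
    rw [Nat.coprime_iff_gcd_eq_one]
    by_contra hne
    obtain ⟨l, hl, hlg⟩ := Nat.exists_prime_and_dvd hne
    have h1 : l ∣ nm q := hlg.trans (Nat.gcd_dvd_left _ _)
    have h3 : l ∣ m1 := hlg.trans (Nat.gcd_dvd_right _ _)
    obtain ⟨M, hM, hqM, hMl⟩ := exists_prime_of_dvd hl h1
    have h4 : q.asIdeal = M := q.isMaximal.eq_of_le hM.ne_top hqM
    apply hmq
    rw [h4]
    exact (hMl m1).2 h3
  have hq1 : ((nm q : ℕ) : ZMod (2 ^ J)) = 1 := by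
    have := (ZMod.natCast_eq_natCast_iff _ _ _).2 hq
    rw [this, Nat.cast_one]
  have hclass : ((Ideal.absNorm I : ℕ) : ZMod (2 ^ J)) =
        (r : ZMod (2 ^ J)) ^ (d * Module.finrank ℚ K) * e ∨
      ((Ideal.absNorm I : ℕ) : ZMod (2 ^ J)) =
        -((r : ZMod (2 ^ J)) ^ (d * Module.finrank ℚ K) * e) := by
    rcases cong_part hm1 hnorm (Nat.Coprime.mul_left hnq hcopI) hI' hN
      (hr.pow_left (d * Module.finrank ℚ K)) he hc (norm_cong hx) with h | h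
    · left
      have h1 : ((2 ^ J : ℕ) : ℤ) ∣ ((r ^ (d * Module.finrank ℚ K) : ℕ) : ℤ) * (e : ℤ) -
          ((nm q * Ideal.absNorm I : ℕ) : ℤ) := by
        push_cast
        push_cast at h
        exact h
      have h3 := (ZMod.intCast_eq_intCast_iff_dvd_sub _ _ _).2 h1
      push_cast at h3
      rw [hq1, one_mul] at h3
      exact h3
    · right
      have h1 : ((2 ^ J : ℕ) : ℤ) ∣ ((r ^ (d * Module.finrank ℚ K) : ℕ) : ℤ) * (e : ℤ) -
          (-((nm q * Ideal.absNorm I : ℕ) : ℤ)) := by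
        rw [sub_neg_eq_add]
        push_cast
        push_cast at h
        exact h
      have h3 := (ZMod.intCast_eq_intCast_iff_dvd_sub _ _ _).2 h1
      push_cast at h3
      rw [hq1, one_mul] at h3
      rw [← h3, neg_neg]
  have hIm : I ⊔ Ideal.span {((m1 ^ k : ℕ) : 𝓞 K)} = ⊤ := by
    rw [← Ideal.isCoprime_iff_sup_eq] at hIco ⊢
    have h1 : Ideal.span {((m1 ^ k : ℕ) : 𝓞 K)} = Ideal.span {(m1 : 𝓞 K)} ^ k := by
      rw [Ideal.span_singleton_pow]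
      push_cast
      rfl
    rw [h1]
    exact hIco.pow_right
  have hItop : I ≠ ⊤ := by
    rintro rfl
    rw [Ideal.absNorm_top, Nat.cast_one] at hclass
    rcases hclass with h | h
    · apply hr1
      have h1 : (((r : ℤ) ^ (d * Module.finrank ℚ K) * e - 1 : ℤ) : ZMod (2 ^ J)) = 0 := by
        push_cast
        rw [← h, sub_self]
      exact (ZMod.intCast_zmod_eq_zero_iff_dvd _ _).1 h1
    · apply hr2
      have h1 : (((r : ℤ) ^ (d * Module.finrank ℚ K) * e + 1 : ℤ) : ZMod (2 ^ J)) = 0 := by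
        push_cast
        rw [h]
        ring
      exact (ZMod.intCast_zmod_eq_zero_iff_dvd _ _).1 h1
  refine ⟨⟨I, hI0, hIm⟩, hItop, hxI, ?_, hclass⟩
  rw [hnorm]
  have h1 : Ideal.absNorm I' ≠ 0 := by
    rw [Ne, Ideal.absNorm_eq_zero_iff]
    rintro rfl
    apply hb0
    rw [hII, Ideal.mul_bot]
  calc Ideal.absNorm I * nm q = nm q * Ideal.absNorm I * 1 := by ring
    _ ≤ nm q * Ideal.absNorm I * Ideal.absNorm I' :=
        Nat.mul_le_mul_left _ (Nat.pos_of_ne_zero h1)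

/-- **CI.** `k`, `r` and the classes `α P`, `β` such that the cofactors of `v` and of the values
`P(u, v)` exist for all `u`, `v` congruent to `r` modulo `m1 ^ k` -/
theorem exists_cofI (K : Type) [Field K] [NumberField K] (D dm J : ℕ) (hdm : 1 ≤ dm)
    (hJ : 5 ^ ((D + 2) * dm * Module.finrank ℚ K) + 2 < 2 ^ J) (S : Finset (𝓞 K)[X])
    (hSD : S.card ≤ D)
    (hS : ∀ P ∈ S, P.Monic ∧ 1 ≤ P.natDegree ∧ P.natDegree ≤ dm ∧ P.eval 1 ≠ 0)
    (m1 : ℕ) (hm1 : m1 ≠ 0) (h2 : 2 ∣ m1) :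
    ∃ (k r : ℕ) (α : (𝓞 K)[X] → ZMod (2 ^ J)) (β : ZMod (2 ^ J)), 1 ≤ k ∧ 2 ^ J ∣ m1 ^ k ∧
      r.Coprime (m1 ^ k) ∧ (∀ P ∈ S, IsUnit (α P)) ∧ IsUnit β ∧ ∀ u v : 𝓞 K,
      ((m1 ^ k : ℕ) : 𝓞 K) ∣ u - (r : 𝓞 K) → ((m1 ^ k : ℕ) : 𝓞 K) ∣ v - (r : 𝓞 K) →
      (v ≠ 0 ∧ CofI (m1 ^ k) (2 ^ J) β v) ∧
        ∀ P ∈ S, hv P u v ≠ 0 ∧ CofI (m1 ^ k) (2 ^ J) (α P) (hv P u v) := by
  classical
  have hsplit : ∀ P ∈ S, ∃ c e t : ℕ, (Algebra.norm ℤ (P.eval 1)).natAbs = c * e ∧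
      e.Coprime m1 ∧ c ≠ 0 ∧ c ∣ m1 ^ t := by
    intro P hP
    refine exists_split m1 _ ?_
    rw [Ne, Int.natAbs_eq_zero, Algebra.norm_eq_zero_iff]
    exact (hS P hP).2.2.2
  choose! c e t hN he hc0 hct using hsplit
  obtain ⟨r0, hr0, -, hr0m, -⟩ := Helper56.CB.exists_r J m1 (Nat.pos_of_ne_zero hm1)
  have hr0m1 : r0.Coprime m1 := Nat.Coprime.coprime_dvd_right (dvd_mul_right _ _) hr0m
  obtain ⟨j, hj1, -, hj2⟩ := exists_exponent
    (insert (1, 1) (S.image (fun P => (P.natDegree, e P)))) (D + 1) J (by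
      refine (Finset.card_insert_le _ _).trans ?_
      have := Finset.card_image_le (s := S) (f := fun P => (P.natDegree, e P))
      omega) (fun x => x.1 * Module.finrank ℚ K) (fun x => (x.2 : ℤ)) (by
      intro x hx
      refine Nat.mul_pos ?_ Module.finrank_pos
      rw [Finset.mem_insert, Finset.mem_image] at hx
      rcases hx with rfl | ⟨P, hP, rfl⟩
      · exact Nat.one_pos
      · exact (hS P hP).2.1) (by
      intro x hx
      have h1 : x.1 ≤ dm := by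
        rw [Finset.mem_insert, Finset.mem_image] at hx
        rcases hx with rfl | ⟨P, hP, rfl⟩
        · exact hdm
        · exact (hS P hP).2.2.1
      refine lt_of_le_of_lt ?_ hJ
      have h3 : (D + 1) * (x.1 * Module.finrank ℚ K) ≤ (D + 2) * dm * Module.finrank ℚ K := by
        rw [← mul_assoc]
        exact Nat.mul_le_mul_right _ (Nat.mul_le_mul (by omega) h1)
      exact Nat.add_le_add_right (Nat.pow_le_pow_right (by norm_num) h3) 2) r0 hr0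
  have hk : ∀ P ∈ S, 2 ^ J * c P * m1 ∣ m1 ^ (J + (∑ P ∈ S, t P) + 1) := by
    intro P hP
    rw [pow_succ, pow_add]
    refine mul_dvd_mul (mul_dvd_mul (pow_dvd_pow_of_dvd h2 J) ?_) dvd_rfl
    exact (hct P hP).trans (pow_dvd_pow m1 (Finset.single_le_sum (f := t)
      (fun _ _ => Nat.zero_le _) hP))
  have hk1 : 2 ^ J * 1 * m1 ∣ m1 ^ (J + (∑ P ∈ S, t P) + 1) := by
    rw [pow_succ, pow_add]
    exact mul_dvd_mul (mul_dvd_mul (pow_dvd_pow_of_dvd h2 J) (one_dvd _)) dvd_rfl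
  have hone : (Algebra.norm ℤ (1 : 𝓞 K)).natAbs = 1 * 1 := by
    rw [map_one]; rfl
  have hrj : (r0 ^ j).Coprime m1 := hr0m1.pow_left j
  have hodd : ∀ n : ℕ, n.Coprime m1 → IsUnit ((n : ℕ) : ZMod (2 ^ J)) := by
    intro n hn
    rw [ZMod.isUnit_iff_coprime]
    exact (Nat.Coprime.coprime_dvd_right h2 hn).pow_right J
  have hj3 : ∀ (d f : ℕ), (d, f) ∈ insert (1, 1) (S.image (fun P => (P.natDegree, e P))) →
      (¬ ((2 ^ J : ℕ) : ℤ) ∣ ((r0 ^ j : ℕ) : ℤ) ^ (d * Module.finrank ℚ K) * f - 1 ∧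
      ¬ ((2 ^ J : ℕ) : ℤ) ∣ ((r0 ^ j : ℕ) : ℤ) ^ (d * Module.finrank ℚ K) * f + 1) := by
    intro d f hdf
    have h1 := hj2 (d, f) hdf
    rw [Nat.cast_pow 2 J]
    exact h1
  have hj3v := hj3 1 1 (Finset.mem_insert_self _ _)
  have hj3P : ∀ P ∈ S, _ := fun P hP => hj3 P.natDegree (e P)
    (Finset.mem_insert_of_mem (Finset.mem_image_of_mem (fun P => (P.natDegree, e P)) hP))
  refine ⟨J + (∑ P ∈ S, t P) + 1, r0 ^ j,
    fun P => ((r0 ^ j : ℕ) : ZMod (2 ^ J)) ^ (P.natDegree * Module.finrank ℚ K) * e P,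
    ((r0 ^ j : ℕ) : ZMod (2 ^ J)) ^ (1 * Module.finrank ℚ K) * ((1 : ℕ) : ZMod (2 ^ J)),
    by omega, ((dvd_mul_right _ _).trans (dvd_mul_right _ _)).trans hk1, hrj.pow_right _,
    fun P hP => ((hodd _ hrj).pow _).mul (hodd _ (he P hP)),
    ((hodd _ hrj).pow _).mul (by rw [Nat.cast_one]; exact isUnit_one), fun u v hu hv' => ?_⟩
  have hvx : ((m1 ^ (J + (∑ P ∈ S, t P) + 1) : ℕ) : 𝓞 K) ∣ v - ((r0 ^ j : ℕ) : 𝓞 K) ^ 1 * 1 := by
    rw [pow_one, mul_one]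
    exact hv'
  have hPx : ∀ P ∈ S, ((m1 ^ (J + (∑ P ∈ S, t P) + 1) : ℕ) : 𝓞 K) ∣
      hv P u v - ((r0 ^ j : ℕ) : 𝓞 K) ^ P.natDegree * P.eval 1 := fun P _ => hv_cong hu hv'
  refine ⟨⟨ne_zero_gen h2 hone (Nat.coprime_one_left m1) one_ne_zero hk1 hrj hvx, ?_⟩,
    fun P hP => ⟨ne_zero_gen h2 (hN P hP) (he P hP) (hc0 P hP) (hk P hP) hrj (hPx P hP), ?_⟩⟩
  · exact cofI_gen h2 hm1 hone (Nat.coprime_one_left m1) one_ne_zero hk1 hrj hj3v.1 hj3v.2 hvx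
  · exact cofI_gen h2 hm1 (hN P hP) (he P hP) (hc0 P hP) (hk P hP) hrj (hj3P P hP).1
      (hj3P P hP).2 (hPx P hP)

/-- the form for degree two -/
theorem exists_cofac (K : Type) [Field K] [NumberField K] (D dm J : ℕ) (hdm : 1 ≤ dm)
    (hJ : 5 ^ ((D + 2) * dm * Module.finrank ℚ K) + 2 < 2 ^ J) (S : Finset (𝓞 K)[X])
    (hSD : S.card ≤ D)
    (hS : ∀ P ∈ S, P.Monic ∧ 1 ≤ P.natDegree ∧ P.natDegree ≤ dm ∧ P.eval 1 ≠ 0)
    (m1 : ℕ) (hm1 : m1 ≠ 0) (h2 : 2 ∣ m1) :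
    ∃ k r : ℕ, 1 ≤ k ∧ r.Coprime (m1 ^ k) ∧ ∀ u v : 𝓞 K,
      ((m1 ^ k : ℕ) : 𝓞 K) ∣ u - (r : 𝓞 K) → ((m1 ^ k : ℕ) : 𝓞 K) ∣ v - (r : 𝓞 K) →
      Cofac (m1 ^ k) (2 ^ J) v ∧ ∀ P ∈ S, Cofac (m1 ^ k) (2 ^ J) (hv P u v) := by
  obtain ⟨k, r, α, β, h1, -, h3, -, -, h4⟩ := exists_cofI K D dm J hdm hJ S hSD hS m1 hm1 h2
  refine ⟨k, r, h1, h3, fun u v hu hv' => ?_⟩
  have h5 := h4 u v hu hv'
  exact ⟨h5.1.2.cofac, fun P hP => (h5.2 P hP).2.cofac⟩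

end Pool.Agent.Helper14.CB
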