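import Pool.Agent.Helper65.CB.TEDefs
import Pool.Agent.Helper56.CB.Moeb

/-!
# CB, piece STEPC: the step from the value at a point
-/

set_option autoImplicit false

namespace Pool.Agent.Helper14.CB

open NumberField Polynomial Pool.Agent.Helper4.CB Pool.Agent.Helper16.CB Pool.Agent.Helper65.CB
open Pool.Agent.Helper56.CB

/-- **STEPC** from the step at infinity for polynomials of even degree -/
theorem stepC_of_even {K : Type} [Field K] [NumberField K] {dm : ℕ} (hdm : 1 ≤ dm)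
    (hs : ∀ D J0 : ℕ, ∃ J : ℕ, J0 ≤ J ∧ ∀ a b : K[X], a ≠ 0 → b ≠ 0 → Even a.natDegree →
      Even b.natDegree → (a * b).natDegree ≤ D →
      (∀ P : K[X], Irreducible P → P ∣ a * b → P.natDegree ≤ dm ∨ LC (Ideal.span {P}) a b) →
      HS K J0 a.leadingCoeff b.leadingCoeff →
      ∀ Z : Finset K, ∃ s : K, s ∉ Z ∧ HS K J (a.eval s) (b.eval s)) : StepC K dm := by
  classical
  intro D J0
  obtain ⟨J, hJ, h⟩ := hs (4 * D) J0
  refine ⟨J, hJ, fun a b ha hb hD hP c hc Z => ?_⟩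
  have hab : (a * b).natDegree = a.natDegree + b.natDegree := natDegree_mul ha hb
  have had : a.natDegree ≤ 2 * D := by omega
  have hbd : b.natDegree ≤ 2 * D := by omega
  have hac := hc.ne_zero.1
  have hbc := hc.ne_zero.2
  have hA : (Tm c (2 * D) a).natDegree = 2 * D := Tm_natDegree had hac
  have hB : (Tm c (2 * D) b).natDegree = 2 * D := Tm_natDegree hbd hbc
  have hAB : (Tm c (2 * D) a * Tm c (2 * D) b).natDegree ≤ 4 * D := by
    refine natDegree_mul_le.trans ?_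
    omega
  obtain ⟨s, hsZ, hs'⟩ := h (Tm c (2 * D) a) (Tm c (2 * D) b) (Tm_ne_zero ha) (Tm_ne_zero hb)
    (by rw [hA]; exact even_two_mul D) (by rw [hB]; exact even_two_mul D) hAB
    (moeb_factors hdm ha hb had hbd hP)
    (by rw [Tm_leadingCoeff had hac, Tm_leadingCoeff hbd hbc]; exact hc)
    (insert 0 (Z.image (fun z => (z - c)⁻¹)))
  rw [Finset.mem_insert, not_or] at hsZ
  obtain ⟨hs0, hsZ⟩ := hsZ
  refine ⟨c + s⁻¹, ?_, ?_⟩
  · intro hmem
    apply hsZ
    rw [Finset.mem_image]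
    exact ⟨c + s⁻¹, hmem, by rw [add_sub_cancel_left, inv_inv]⟩
  · rw [Tm_eval hs0 had, Tm_eval hs0 hbd] at hs'
    have hsD : (s ^ D)⁻¹ ≠ 0 := inv_ne_zero (pow_ne_zero D hs0)
    have h1 := hs'.sq hsD hsD
    have h2 : ∀ x : K, ((s ^ D)⁻¹) ^ 2 * (s ^ (2 * D) * x) = x := by
      intro x
      rw [← mul_assoc, inv_pow, ← pow_mul, mul_comm D 2, inv_mul_cancel₀ (pow_ne_zero _ hs0),
        one_mul]
    rwa [h2, h2] at h1

/-- **STEPC** from the step at infinity -/
theorem stepC {K : Type} [Field K] [NumberField K] {dm : ℕ} (hdm : 1 ≤ dm)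
    (hs : StepLC K dm) : StepC K dm := by
  apply stepC_of_even hdm
  intro D J0
  obtain ⟨J, hJ, h⟩ := hs D J0
  exact ⟨J, hJ, fun a b ha hb _ _ hD hP hlc Z => h a b ha hb hD hP hlc Z⟩

end Pool.Agent.Helper14.CB
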